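import Pool.Agent.H10.Shir4
import Pool.Agent.H10.Metab

namespace Pool.Agent.Results.MP_4b2ccd_lc.Answer
open Pool.Agent.H10.LieLang

theorem result :
    (∀ (K : Type) [Field K] (r : ℕ), LogHom K (Lr K r)) ∧
    (∀ (K : Type) [Field K] (r n : ℕ), LogHom K (Nil K r n)) ∧
    ¬ (∀ (K : Type) [Field K] (r n : ℕ), 1 ≤ r → 1 ≤ n → LogHom K (Sol K r n)) :=
  ⟨fun _ _ r => Pool.Agent.H10.Shir.free_main r, fun _ _ r n m a b h => nil_main true r n m a b h,
    fun h => Pool.Agent.H10.Metab.not_hom (h _ 3 2 (by omega) (by omega))⟩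

end Pool.Agent.Results.MP_4b2ccd_lc.Answer
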