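import Pool.Agent.H10.Shir4

namespace Pool.Agent.Results.MP_4b2ccd_lc.Free
open Pool.Agent.H10.LieLang

theorem result (K : Type) [Field K] (r : ℕ) : LogHom K (Lr K r) :=
  Pool.Agent.H10.Shir.free_main r

end Pool.Agent.Results.MP_4b2ccd_lc.Free
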