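import Pool.Agent.H10.LieLang

namespace Pool.Agent.Results.MP_4b2ccd_lc.Nilpotent
open Pool.Agent.H10.LieLang

theorem result (K : Type) [Field K] (r n : ℕ) : LogHom K (Nil K r n) :=
  fun m a b h => nil_main true r n m a b h

end Pool.Agent.Results.MP_4b2ccd_lc.Nilpotent
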