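import Pool.Agent.H10.Metab

namespace Pool.Agent.Results.MP_4b2ccd_lc.Solvable
open Pool.Agent.H10.LieLang

theorem result :
    ∃ (K : Type) (_ : Field K) (r n : ℕ), 1 ≤ r ∧ 1 ≤ n ∧ ¬ LogHom K (Sol K r n) :=
  ⟨Pool.Agent.H10.Metab.F, inferInstance, 3, 2, by omega, by omega, Pool.Agent.H10.Metab.not_hom⟩

end Pool.Agent.Results.MP_4b2ccd_lc.Solvable
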